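import Pool.Agent.W_MP_aeed81_al.BThm
import Pool.Agent.W_MP_aeed81_al.MThm

namespace Pool.Agent.Results.MP_aeed81_al.BrauerMotzkinGroups

open Pool.Agent.W_MP_aeed81_al Sum

/-- The rank of the free group in the Motzkin case: `r` is the rank of the projection and
`M = n - r` the number of points that do not lie in a block `{i, i'}`. -/
def motzkinRank (r M : ℕ) : ℕ :=
  if M ≤ 2 then 0
  else if M = 3 then r
  else 2 * r * (r + 1).choose (M - 3) + r * (r + 1).choose (M - 4) - (r + 1).choose (M - 2)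

/-- The maximal subgroups of the free projection-generated regular star-semigroups over the
projections of the Brauer monoid and of the Motzkin monoid, for all `n` and all projections. -/
theorem result (n : ℕ) :
    (∀ p : Proj (Brauer n),
      (drank p.1 = n ∧ HClassIso (gen p) PUnit.{1}) ∨
      (drank p.1 + 2 = n ∧
        HClassIso (gen p) (FreeGroup (Fin (n * (n - 1).choose 2 + 1 - n.choose 2)))) ∨
      (n = 4 ∧ drank p.1 = 0 ∧ HClassIso (gen p) (Multiplicative ℤ)) ∨
      (5 ≤ n ∧ drank p.1 + 4 ≤ n ∧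
        HClassIso (gen p) (Equiv.Perm (Fin (drank p.1)) × Multiplicative (ZMod 2)))) ∧
    (∀ p : Proj (Motzkin n),
      ((∀ i j : Fin n, (j : ℕ) = i + 1 → p.1 (inl i) (inr i) ∨ p.1 (inl j) (inr j)) →
        HClassIso (gen p) PUnit.{1}) ∧
      ((∃ i j : Fin n, (j : ℕ) = i + 1 ∧ ¬ p.1 (inl i) (inr i) ∧ ¬ p.1 (inl j) (inr j)) →
        HClassIso (gen p) (FreeGroup (Fin (motzkinRank (drank p.1) (n - drank p.1)))))) :=
  ⟨brauer_main n, motzkin_main n⟩

end Pool.Agent.Results.MP_aeed81_al.BrauerMotzkinGroups
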